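import Mathlib
import Pool.Agent.E2S.Ct

/-!
# E-T (MP_12a1af_nt), phase 2: the first scale
-/

set_option autoImplicit false

namespace Pool.Agent.Helper91.E2

open Pool.Agent.Helper29.ETK (CC lg kk)
open Pool.Agent.Helper29.E2 (ep epo epo_mono Big)
open Pool.Agent.Helper86.E2 (E0)
open Pool.Agent.E2S (BigK BigOne)

variable {c : ℕ}

lemma one_lt_CC (hc : 1 ≤ c) : 1 < CC c := by
  unfold CC
  exact Nat.one_lt_two_pow (by omega)

lemma lg_pow (hc : 1 ≤ c) (n : ℕ) : lg c (CC c ^ n) = n := by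
  unfold lg
  exact Nat.log_pow (one_lt_CC hc) n

lemma epo_pow (hc : 1 ≤ c) (n : ℕ) : epo c (CC c ^ (2 * n + 1)) = n := by
  unfold epo
  rw [lg_pow hc]
  omega

/-- a possible first scale -/
def fs (c m : ℕ) : ℕ := CC c ^ (2 * (E0 c + 2 ^ (4 * c) + 1000 + m) + 1)

lemma epo_fs (hc : 1 ≤ c) (m : ℕ) : epo c (fs c m) = E0 c + 2 ^ (4 * c) + 1000 + m :=
  epo_pow hc _

/-- in the good epochs the periods are long -/
lemma kk_of_E0 {e : ℕ} (he : E0 c ≤ e) : 4 * c ≤ kk e + 8 := by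
  have := Pool.Agent.Helper86.E2.four_le_kk he
  omega

lemma bigOne_of (hc : 20 ≤ c) {K : ℕ} (h1 : 10 ≤ epo c K) (h2 : E0 c ≤ epo c K) :
    BigOne c K where
  c20 := hc
  big := ⟨by omega, h1, kk_of_E0 h2⟩
  E0 := h2

/-- **the first scale can be chosen**: everything about the first scale, and it is as large as
wanted -/
theorem exists_first (hc : 20 ≤ c) (N : ℕ) : ∃ K1, N ≤ K1 ∧ BigK c K1 ∧
    (∀ K, K1 ≤ K → BigOne c K) ∧ CC c ^ 100 ≤ K1 ∧ 1000 + N ≤ epo c K1 ∧ E0 c ≤ epo c K1 ∧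
    2 ^ (4 * c) ≤ epo c K1 := by
  have he := epo_fs (c := c) (by omega) N
  have hC := one_lt_CC (c := c) (by omega)
  have hp : 0 < 2 ^ (4 * c) := by positivity
  refine ⟨fs c N, ?_, ⟨hc, ⟨by omega, by omega, kk_of_E0 (by omega)⟩, by omega⟩, ?_, ?_, by omega,
    by omega, by omega⟩
  · unfold fs
    refine (Nat.lt_pow_self hC (n := N)).le.trans (Nat.pow_le_pow_right (by omega) (by omega))
  · intro K hK
    have h3 := epo_mono (c := c) hK
    exact bigOne_of hc (by omega) (by omega)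
  · unfold fs
    exact Nat.pow_le_pow_right (by omega) (by omega)

end Pool.Agent.Helper91.E2
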